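import Pool.Agent.H7.ME.Stmts
import Pool.Agent.H88.HZ.WSG

/-!
Board `ia13`, row WGT: nearly all vertices are clean (sum of WVT over all vertices)
-/

set_option autoImplicit false

open Finset

namespace Pool.ME7

open Pool.Agent.H23.KT Pool.Agent.H46.KW Pool.KQ Pool.GT7 Pool.GU7 Pool.HZ7 Pool.IA7

namespace H99WGT

lemma pt_nonneg {p w r : ℕ} (h : PrT p w r) : 0 ≤ pt p w r := by
  unfold pt
  have h1 : (r : ℝ) ≤ p + 1 := by exact_mod_cast h.rp
  apply div_nonneg
  · apply mul_nonneg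
    · positivity
    · linarith
  · positivity

lemma Mt_nonneg {p w r a : ℕ} (h : PrT p w r) : 0 ≤ Mt p w r a := by
  unfold Mt c1
  have := pt_nonneg h
  positivity

end H99WGT

open H99WGT Pool.HZ7.H88WSG in
theorem wgt_thm (hWVT : WVTStmt) (hPHI : PHI0Stmt) : WGTStmt := by
  intro p w r hP
  obtain ⟨c, C, hc, hC, hW⟩ := hWVT p w r hP
  refine ⟨C, hC, ?_⟩
  intro ε e K hε he he8
  have hε' : 0 < c * ε / 4 := by positivity
  obtain ⟨a₁, h1⟩ := hW (c * ε / 4) e hε' he he8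
  refine ⟨max a₁ (⌈4 * |K| / (c * ε)⌉₊ + 1), ?_⟩
  intro a ha V _ _ G hG hsum
  have ha1 : a₁ ≤ a := (le_max_left _ _).trans ha
  have ha2 : ⌈4 * |K| / (c * ε)⌉₊ + 1 ≤ a := (le_max_right _ _).trans ha
  have hapos : (0 : ℝ) < a := by
    have : 0 < a := by omega
    exact_mod_cast this
  have haK : 4 * |K| / (c * ε) ≤ a := by
    have h2 : 4 * |K| / (c * ε) ≤ (⌈4 * |K| / (c * ε)⌉₊ : ℝ) := Nat.le_ceil _
    have h3 : ((⌈4 * |K| / (c * ε)⌉₊ : ℕ) : ℝ) ≤ a := by
      have : ⌈4 * |K| / (c * ε)⌉₊ ≤ a := by omega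
      exact_mod_cast this
    linarith
  have hK : |K| ≤ c * ε / 4 * a := by
    rw [div_le_iff₀ (by positivity)] at haK
    linarith
  have h2 := h1 a ha1 G hG
  choose s hs using h2
  have hr1 : 1 ≤ r := by
    by_contra h0
    have h00 : r = 0 := by omega
    have := hP.rs
    rw [h00] at this
    simp at this
  have hP0 : Pr0 p 0 r := ⟨Nat.zero_le _, hr1, hP.rp⟩
  -- sum over all vertices
  have hex := H14GLO.exch (G := G) (p + 3) (fun v L => min (r : ℝ) (XX G p r a (nb G univ v) L))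
  have hphi := hPHI G p 0 r a hP0 hG.cb hG.deg
  have h4 : (r : ℝ) * kc G univ (p + 4) ≤ ∑ K ∈ clq G univ (p + 4), ∑ v ∈ K,
      min (r : ℝ) (XX G p r a (nb G univ v) (K.erase v)) := by
    rw [kc_eq, mul_comm, ← nsmul_eq_mul]
    exact card_nsmul_le_sum _ _ _ hphi
  have h5 := sum_kc G (p + 3)
  have h6 : ∑ v, (Mt p w r a * ∑ L ∈ clq G (nb G univ v) (p + 3),
        min (r : ℝ) (XX G p r a (nb G univ v) L) -
      Mt p w r a * ((r : ℝ) / ((p : ℝ) + 4)) * kc G (nb G univ v) (p + 3) +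
      ltt p w r * (a : ℝ) ^ (w + 1) + s v * (a : ℝ) ^ (w + 1)) ≤
      ∑ v, (df G p w r a (nb G univ v) + c * ε / 4 * (a : ℝ) ^ (w + 1)) :=
    sum_le_sum (fun v _ => (hs v).2)
  rw [sum_add_distrib, sum_add_distrib, sum_sub_distrib, ← mul_sum, ← mul_sum, sum_add_distrib,
    sum_const, sum_const, hex, h5, card_univ, nsmul_eq_mul, nsmul_eq_mul, ← sum_mul] at h6
  have h7 := mul_le_mul_of_nonneg_left h4 (Mt_nonneg (a := a) hP)
  have h8 : Mt p w r a * ((r : ℝ) / ((p : ℝ) + 4)) * (((p + 3 : ℕ) : ℝ) + 1) *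
      kc G univ (p + 3 + 1) = Mt p w r a * (r * kc G univ (p + 4)) := by
    have hp4 : ((p : ℝ) + 4) ≠ 0 := by positivity
    push_cast
    field_simp
    ring
  have h9 : (∑ v, s v) * (a : ℝ) ^ (w + 1) ≤ K * (a : ℝ) ^ w * Fintype.card V +
      c * ε / 4 * (a : ℝ) ^ (w + 1) * Fintype.card V := by
    have h10 : Mt p w r a * ((r : ℝ) / ((p : ℝ) + 4)) * ((((p + 3 : ℕ) : ℝ) + 1) *
      kc G univ (p + 3 + 1)) = Mt p w r a * (r * kc G univ (p + 4)) := by
      rw [← h8]; ring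
    rw [h10] at h6
    have h11 : Mt p w r a * ∑ K ∈ clq G univ (p + 3 + 1), ∑ v ∈ K,
        min (r : ℝ) (XX G p r a (nb G univ v) (K.erase v)) =
        Mt p w r a * ∑ K ∈ clq G univ (p + 4), ∑ v ∈ K,
        min (r : ℝ) (XX G p r a (nb G univ v) (K.erase v)) := rfl
    rw [h11] at h6
    nlinarith [h6, h7, hsum]
  -- the clean vertices
  classical
  have hsum2 : ∑ v, s v = c * ((univ.filter (fun v => s v = c)).card : ℝ) := by
    have h12 : ∀ v, s v = if s v = c then c else 0 := by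
      intro v
      by_cases h : s v = c
      · simp [h]
      · rw [if_neg h]
        rcases (hs v).1 with h' | h'
        · exact absurd h' h
        · exact h'.1
    rw [sum_congr rfl (fun v _ => h12 v), sum_ite, sum_const, sum_const_zero, add_zero,
      nsmul_eq_mul, mul_comm]
  have hP' : ∀ v, ∃ P : Fin (p + 3) → Finset V, s v ≠ c → Cl G p r a e C v P := by
    intro v
    by_cases h : s v = c
    · exact ⟨fun _ => ∅, fun h' => absurd h h'⟩
    · rcases (hs v).1 with h' | ⟨-, P, h'⟩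
      · exact absurd h' h
      · exact ⟨P, fun _ => h'⟩
  choose P hPv using hP'
  refine ⟨univ.filter (fun v => s v ≠ c), P, ?_, ?_⟩
  · intro v hv
    exact hPv v (mem_filter.1 hv).2
  · have hcomp : univ \ univ.filter (fun v => s v ≠ c) = univ.filter (fun v => s v = c) := by
      ext v
      simp
    rw [hcomp]
    rw [hsum2] at h9
    set M : ℝ := ((univ.filter (fun v => s v = c)).card : ℝ) with hM
    set m : ℝ := (Fintype.card V : ℝ) with hm
    have hm0 : 0 ≤ m := by positivity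
    have haw : (0 : ℝ) < (a : ℝ) ^ w := by positivity
    have haw1 : (0 : ℝ) < (a : ℝ) ^ (w + 1) := by positivity
    have hKm : K * (a : ℝ) ^ w * m ≤ c * ε / 4 * (a : ℝ) ^ (w + 1) * m := by
      have h0 : K ≤ c * ε / 4 * a := (le_abs_self K).trans hK
      have h1 : K * (a : ℝ) ^ w ≤ c * ε / 4 * a * (a : ℝ) ^ w :=
        mul_le_mul_of_nonneg_right h0 haw.le
      have h2 : c * ε / 4 * a * (a : ℝ) ^ w = c * ε / 4 * (a : ℝ) ^ (w + 1) := by
        rw [pow_succ]; ring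
      rw [h2] at h1
      exact mul_le_mul_of_nonneg_right h1 hm0
    have h13 : c * M * (a : ℝ) ^ (w + 1) ≤ c * (a : ℝ) ^ (w + 1) * (ε * m) := by
      have h14 : c * ε / 4 * (a : ℝ) ^ (w + 1) * m + c * ε / 4 * (a : ℝ) ^ (w + 1) * m ≤
          c * (a : ℝ) ^ (w + 1) * (ε * m) := by
        have : 0 ≤ c * ε * (a : ℝ) ^ (w + 1) * m := by positivity
        nlinarith
      linarith
    have h15 : (c * (a : ℝ) ^ (w + 1)) * M ≤ (c * (a : ℝ) ^ (w + 1)) * (ε * m) := by linarith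
    exact le_of_mul_le_mul_left h15 (by positivity)

end Pool.ME7
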